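import Pool.Agent.D0H67.TS.Stm
import Pool.Agent.D0H67.CX.Lift

/-! # (MONN) -/

set_option autoImplicit false
set_option linter.unusedSectionVars false
set_option linter.unusedVariables false

namespace Pool.Agent.D0H53.TS

open MvPolynomial Pool.Agent.W428.MOT Pool.Agent.TH192.MT Pool.Agent.TH192.DT
  Pool.Agent.D0H67.SUB Pool.Agent.D0H67.PM Pool.Agent.D0H67.SUB.Trn Pool.Agent.D0H67.CX
  Pool.Agent.D0H67.TS

theorem chi_RS {K : Type} [Field K] {R : Type} [CommRing R] (M : Meas K R) (M₀ : ℕ) :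
    M.χ (Empty ⊕ Unit) (RS M₀ (Set.univ : Set (Pt K (Empty ⊕ Unit)))) = M.L - 1 := by
  let e : Fin 1 ⊕ Empty ≃ Empty ⊕ Unit :=
    (Equiv.sumEmpty (Fin 1) Empty).trans
      ((Equiv.ofUnique (Fin 1) Unit).trans (Equiv.emptySum Empty Unit).symm)
  have h := chi_split M e (RS M₀ (Set.univ : Set (Pt K (Empty ⊕ Unit))))
    {z : Pt K (Fin 1) | z 0 ≠ 0} (Constr.not (Constr.eqz (IsPF.coord 0))) (by
      intro z
      have he : e (Sum.inl 0) = Sum.inr () := rfl
      change (z (Sum.inr ()) ≠ 0 ∧ _) ↔ z (e (Sum.inl 0)) ≠ 0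
      rw [he]
      exact ⟨fun h => h.1, fun h => ⟨h, trivial⟩⟩)
  rw [h, Pool.Agent.W417.MT.Free.chi_gm, Fintype.card_empty, pow_zero, mul_one]

theorem mem_LS_univ {K : Type} [Field K] {σ J : Type} (g : J → MvPolynomial σ K) (p : Pt K σ)
    (y : J → AlgebraicClosure K) (N : ℕ) (x : Pt K (Empty ⊕ (σ × Fin (N + 1)))) :
    x ∈ LS g p y N Set.univ ↔ (fun q => x (Sum.inr q)) ∈ JetE g p y N := by
  constructor
  · rintro ⟨c, hc, ⟨h1, h2, h3⟩, -⟩
    exact ⟨h1, h2, c, hc, h3⟩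
  · rintro ⟨h1, h2, c, hc, h3⟩
    exact ⟨c, hc, ⟨h1, h2, h3⟩, trivial⟩

theorem t_MONN : S_MONN := by
  intro σ J _ _ g p y M₀ k hN
  obtain ⟨hy, hM₀, hk, hne, hN⟩ := hN
  obtain ⟨M, hL, hM⟩ := exists_meas ℂ
  have hLw : M.L * (((Lu ℂ)⁻¹ : (MK ℂ)ˣ) : MK ℂ) = 1 := by rw [hL, Units.mul_inv]
  have hyF : aP y ≠ 0 := by
    intro h
    apply hy
    funext j
    have h1 : algebraMap ℂ (AlgebraicClosure ℂ) (y j) = 0 := congrFun h j
    exact (map_eq_zero_iff _ (algebraMap ℂ (AlgebraicClosure ℂ)).injective).1 h1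
  refine ⟨hy, hne, Finsupp.single_eq_of_ne hM₀.ne, fun N hN0 => ?_⟩
  by_cases hd : M₀ ∣ N
  · obtain ⟨m, hm⟩ := (hN N hN0).1 hd
    have h1 := (hm (ρ := Empty) Set.univ Constr.univ).2 M _ hLw
    rw [chi_RS] at h1
    have h2 := chi_split M (Equiv.sumComm (σ × Fin (N + 1)) Empty)
      (LS g (aP p) (aP y) N Set.univ) (JetE g (aP p) (aP y) N)
      (Pool.Agent.D0H67.CX.Lift.constr_JetE g (aP p) (aP y) hyF N)
      (mem_LS_univ g (aP p) (aP y) N)
    rw [Fintype.card_empty, pow_zero, mul_one] at h2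
    rw [h2] at h1
    refine ⟨Polynomial.C (k : ℤ) * Polynomial.X ^ m, 0, ?_, ?_⟩
    · rw [Finsupp.support_single_ne_zero _ (by exact_mod_cast hk.ne'), Finset.filter_singleton,
        if_pos hd, Finset.sum_singleton, Finsupp.single_eq_same]
      simp
    · rw [← hM, ← hL, pow_zero, mul_one]
      refine h1.trans ?_
      rw [Polynomial.eval₂_mul, Polynomial.eval₂_C, Polynomial.eval₂_pow, Polynomial.eval₂_X,
        eq_intCast, Int.cast_natCast]
      ring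
  · refine ⟨0, 0, ?_, ?_⟩
    · rw [Finsupp.support_single_ne_zero _ (by exact_mod_cast hk.ne'), Finset.filter_singleton,
        if_neg hd, Finset.sum_empty]
      simp
    · have h1 := (hN N hN0).2 hd
      unfold aP at h1
      rw [h1, ← hM, Pool.Agent.W375.MT.chi_empty, zero_mul, Polynomial.eval₂_zero, mul_zero]

end Pool.Agent.D0H53.TS
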