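import Pool.Agent.D0H67.TS.Stm
import Pool.Agent.D0H67.CX.Rat2

/-! # (RAT2T) -/

set_option autoImplicit false
set_option linter.unusedSectionVars false
set_option linter.unusedVariables false

namespace Pool.Agent.D0H53.TS

open MvPolynomial Pool.Agent.W428.MOT Pool.Agent.TH192.MT Pool.Agent.TH192.DT
  Pool.Agent.D0H67.SUB Pool.Agent.D0H67.PM Pool.Agent.D0H67.CX Pool.Agent.D0H67.TS

theorem mk_one_mul {R : Type} [CommRing R] :
    (PowerSeries.mk fun _ => (1 : R)) * (1 - PowerSeries.X) = 1 :=
  PowerSeries.mk_one_mul_one_sub_eq_one R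

/-- the strata of the whole space -/
theorem sum_VC {K : Type} [Field K] {σ S : Type} [Fintype σ] [DecidableEq S]
    (L : S → Submodule (AlgebraicClosure K) (Pt K σ))
    (hL : ∀ s, Constr (L s : Set (Pt K σ))) (A : Finset S) {R : Type} [CommRing R]
    (M : Meas K R) : ∑ B ∈ A.powerset, M.χ σ (VC L A B) = M.L ^ Fintype.card σ := by
  classical
  rw [← chi_univ M (ι := σ), ← Pool.Agent.W375.MT.chi_biUnion M A.powerset (fun B => VC L A B)
    (fun B _ => Pool.Agent.D0H67.PM.Eng.constr_VC L hL A B)]
  · congr 1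
    ext u
    simp only [Set.mem_iUnion, exists_prop, Finset.mem_powerset, Set.mem_univ, iff_true]
    refine ⟨A.filter fun s => u ∈ L s, Finset.filter_subset _ _,
      fun s hs => (Finset.mem_filter.1 hs).2, fun s hs h3 => ?_⟩
    rw [Finset.mem_sdiff, Finset.mem_filter] at hs
    exact hs.2 ⟨hs.1, h3⟩
  · intro B hB B' hB' hne
    rw [Set.disjoint_left]
    intro u h1 h2
    exact hne (Pool.Agent.D0H67.PM.Eng.VC_disj L (Finset.mem_powerset.1 hB)
      (Finset.mem_powerset.1 hB') h1 h2)

theorem t_RAT2T : S_RAT2T := by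
  intro K _ _ σ S _ _ L f hf0 hf R _ M u hu
  set v : R := ((u⁻¹ : Rˣ) : R) with hvdef
  have hv : M.L * v = 1 := by rw [hu, hvdef, Units.mul_inv]
  have hL : ∀ s, Constr (L s : Set (Pt K σ)) :=
    fun s => Pool.Agent.D0H67.SUB.Base.constr_sub (L s)
  have hE := Pool.Agent.D0H67.PM.Eng.main L f hL hf0 hf M v hv
  -- the recursion
  have hrec : ∀ A : Finset S, tl 1 (zf M v L f A) = ∑ i ∈ Finset.range (f A), PowerSeries.X ^ i +
      PowerSeries.C (v ^ Fintype.card σ) * PowerSeries.X ^ f A *
        ∑ B ∈ A.powerset, PowerSeries.C (M.χ σ (VC L A B)) * tl 1 (zf M v L f B) := by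
    intro A
    set E : PowerSeries R := PowerSeries.mk fun _ => (1 : R) with hEdef
    have hE1 : E * (1 - PowerSeries.X) = 1 := mk_one_mul
    have h1 : (∑ i ∈ Finset.range (f A), (PowerSeries.X : PowerSeries R) ^ i) *
        (1 - PowerSeries.X) = 1 - PowerSeries.X ^ f A := geom_sum_mul_neg _ _
    have h2 : PowerSeries.C (v ^ Fintype.card σ) * ∑ B ∈ A.powerset,
        PowerSeries.C (M.χ σ (VC L A B)) = (1 : PowerSeries R) := by
      rw [← map_sum, sum_VC L hL A M, ← map_mul, ← mul_pow, mul_comm v, hv, one_pow, map_one]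
    have h3 : ∑ B ∈ A.powerset, PowerSeries.C (M.χ σ (VC L A B)) * tl 1 (zf M v L f B) =
        (∑ B ∈ A.powerset, PowerSeries.C (M.χ σ (VC L A B)) - PowerSeries.X *
          ∑ B ∈ A.powerset, PowerSeries.C (M.χ σ (VC L A B)) * zf M v L f B) * E := by
      rw [Finset.mul_sum, ← Finset.sum_sub_distrib, Finset.sum_mul]
      refine Finset.sum_congr rfl fun B _ => ?_
      unfold tl
      rw [map_one]
      ring
    have h4 := hE.2 A
    set Y1 := ∑ B ∈ A.powerset, PowerSeries.C (M.χ σ (VC L A B)) * zf M v L f B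
    set Y0 : PowerSeries R := ∑ B ∈ A.powerset, PowerSeries.C (M.χ σ (VC L A B))
    set G : PowerSeries R := ∑ i ∈ Finset.range (f A), PowerSeries.X ^ i
    rw [h3]
    unfold tl
    rw [map_one, h4]
    change (1 - PowerSeries.X * _) * E = _
    have h5 : G = G * (E * (1 - PowerSeries.X)) := by rw [hE1, mul_one]
    linear_combination (-1 : PowerSeries R) * h5 - E * h1 -
      (PowerSeries.X ^ f A * E) * h2
  have h0 : ∀ A : Finset S, f A = 0 → tl 1 (zf M v L f A) = 1 := by
    intro A hA
    rw [hE.1 A hA]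
    unfold tl
    rw [map_one, mul_one, mul_comm]
    exact mk_one_mul
  change ∀ A : Finset S, (∀ s, A.inf L ≤ L s → s ∈ A) →
    tl 1 (zf M v L f A) ∈ ratU u (Pool.Agent.D0H67.CX.Rat2.DD L f A)
  have key : ∀ (n : ℕ) (A : Finset S), A.card = n → (∀ s, A.inf L ≤ L s → s ∈ A) →
      tl 1 (zf M v L f A) ∈ ratU u (Pool.Agent.D0H67.CX.Rat2.DD L f A) := by
    intro n
    induction n using Nat.strong_induction_on with
    | _ n ih =>
      intro A hn hcl
      by_cases hfA : f A = 0
      · rw [h0 A hfA]
        exact Subalgebra.one_mem _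
      · have hpos : 0 < f A := Nat.pos_of_ne_zero hfA
        set d := Module.finrank (AlgebraicClosure K) (A.inf L : Submodule _ _) with hd
        have hdn : d ≤ Fintype.card σ := by
          have h1 := Submodule.finrank_le (A.inf L : Submodule (AlgebraicClosure K) (Pt K σ))
          rwa [Module.finrank_fintype_fun_eq_card] at h1
        refine geo_solve u hpos (D := Pool.Agent.D0H67.CX.Rat2.DD L f A)
          (ν := Fintype.card σ - d) ⟨A, Finset.Subset.refl A, hcl, hpos, rfl⟩ _
          (∑ i ∈ Finset.range (f A), PowerSeries.X ^ i +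
            PowerSeries.C (v ^ Fintype.card σ) * PowerSeries.X ^ f A *
            ∑ B ∈ A.powerset.erase A, PowerSeries.C (M.χ σ (VC L A B)) *
              tl 1 (zf M v L f B)) ?_ ?_
        · refine Subalgebra.add_mem _ (Subalgebra.sum_mem _ fun i _ =>
            Subalgebra.pow_mem _ (rat_X u) _) ?_
          refine Subalgebra.mul_mem _ (Subalgebra.mul_mem _ (rat_C u _)
            (Subalgebra.pow_mem _ (rat_X u) _)) (Subalgebra.sum_mem _ fun B hB => ?_)
          rw [Finset.mem_erase, Finset.mem_powerset] at hB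
          by_cases hV : (VC L A B).Nonempty
          · refine Subalgebra.mul_mem _ (rat_C u _) ?_
            refine Pool.Agent.D0H67.CX.Rat2.ratU_mono u ?_ (ih B.card ?_ B rfl ?_)
            · rintro q ⟨B', h1, h2⟩
              exact ⟨B', h1.trans hB.2, h2⟩
            · rw [← hn]
              exact Finset.card_lt_card (Finset.ssubset_iff_subset_ne.2 ⟨hB.2, hB.1⟩)
            · obtain ⟨x, hx1, hx2⟩ := hV
              intro s hs
              have h1 : s ∈ A := hcl s ((Finset.inf_mono hB.2).trans hs)
              by_contra h2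
              have h3 : x ∈ B.inf L := by
                rw [Submodule.mem_finsetInf]
                exact hx1
              exact hx2 s (Finset.mem_sdiff.2 ⟨h1, h2⟩) (hs h3)
          · rw [Set.not_nonempty_iff_eq_empty] at hV
            rw [hV, Pool.Agent.W375.MT.chi_empty, map_zero, zero_mul]
            exact Subalgebra.zero_mem _
        · conv_lhs => rw [hrec A]
          have h1 : A ∈ A.powerset := Finset.mem_powerset.2 (Finset.Subset.refl A)
          rw [← Finset.sum_erase_add _ _ h1, Pool.Agent.D0H67.PM.Rat.VC_self,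
            (Pool.Agent.D0H67.SUB.Base.cls (A.inf L)).2 M, ← hd, mul_add, ← add_assoc]
          congr 1
          have h2 : v ^ Fintype.card σ * M.L ^ d = v ^ (Fintype.card σ - d) := by
            have h3 : Fintype.card σ = (Fintype.card σ - d) + d := by omega
            conv_lhs => rw [h3, pow_add]
            have h4 : v ^ d * M.L ^ d = 1 := by
              rw [← mul_pow, mul_comm v, hv, one_pow]
            rw [mul_assoc, h4, mul_one]
          rw [← h2, map_mul]
          ring
  intro A hA
  exact key _ A rfl hA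

end Pool.Agent.D0H53.TS
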